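import Mathlib
import Pool.Agent.helper34.MF.CommW

set_option autoImplicit false

/-!
# MP_141f81, Section 9: the subgroup of one letter

From one operator `Az` and a dense family of rows `i` with values `q i`, `q' i` and operators `B i`, `B' i` with
`Az * B i ≈ B' i ≈ B i * Az`, equal colours and equal noise: on the subgroup `D` generated by the differences of the
values, `Az` commutes with every `L v`, and `Az * L v ≈ L (Az v)`.
-/

namespace Helper28MF

open Pool.Agent.MF.LemT
open Pool.Agent.helper35.MF (Ball)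
open Helper34MF

/-- **The subgroup of one letter**, all rows in one class. -/
theorem dz (K : ℕ) : ∃ K' : ℕ, 1 ≤ K' ∧ ∀ (U : Type) [AddCommGroup U] [Finite U], (∀ u : U, u + u = 0) →
    ∀ (L : U → AddMonoid.End U) (Az : AddMonoid.End U) (κ : Type) (q q' : κ → U) (B B' : κ → AddMonoid.End U),
    (∀ u v, nr (L (u + v) + (L u + L v)) ≤ K) →
    (∀ i j, nr (B i + B j + L (q i + q j)) ≤ K) →
    (∀ i j, nr (B' i + B' j + L (q' i + q' j)) ≤ K) →
    (∀ i, nr (Az * B i + B' i) ≤ K) → (∀ i, nr (B i * Az + B' i) ≤ K) →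
    (∀ i j, Az (q i) + q' i = Az (q j) + q' j) →
    Nat.card U ≤ K * (Set.range q).ncard →
    ∃ D : AddSubgroup U, D = AddSubgroup.closure (diffs q Set.univ) ∧ D.index ≤ K' ∧
      ∀ v ∈ D, nr (Az * L v + L v * Az) ≤ K' ∧ nr (Az * L v + L (Az v)) ≤ K' := by
  obtain ⟨c, hc⟩ : ∃ c : ℕ, c = K ^ 6 := ⟨_, rfl⟩
  refine ⟨K + c ^ (2 * (3 * K + 1) + 1) + 1, by omega, ?_⟩
  intro U _ _ two L Az κ q q' B B' add hB hB' hl hr hno hd
  have hK : 1 ≤ K := (nr_pos _).trans_le (add 0 0)
  have hc1 : 1 ≤ c := by rw [hc]; exact Nat.one_le_pow _ _ hK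
  have hp : ∀ {i : ℕ}, i ≤ 6 → K ^ i ≤ c := fun hij => by
    rw [hc]; exact Nat.pow_le_pow_right hK hij
  have hL0 : nr (L 0) ≤ K := by
    have h1 := add 0 0
    rwa [add_zero, Pool.Agent.MF.LemT.add_self two, add_zero] at h1
  have hne : Nonempty κ := by
    by_contra hcon
    rw [not_nonempty_iff] at hcon
    rw [Set.range_eq_empty, Set.ncard_empty, mul_zero] at hd
    have h2 : 0 < Nat.card U := Nat.card_pos
    omega
  obtain ⟨i0⟩ := hne
  have h0 : (0 : U) ∈ diffs q Set.univ := zero_mem_diffs two q (Set.mem_univ i0)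
  have hcard : Nat.card U ≤ K * (diffs q Set.univ).ncard := by
    refine hd.trans (Nat.mul_le_mul_left _ ?_)
    have := card_diffs q Set.univ ⟨i0, Set.mem_univ _⟩
    rwa [Set.image_univ] at this
  have hgen : ∀ u ∈ AddSubgroup.closure (diffs q Set.univ), u ∈ Ball (diffs q Set.univ) (3 * K + 1) :=
    fun u hu => dense_gen two (diffs q Set.univ) h0 K hcard hu
  have hpr : ∀ i j, nr (Az * L (q i + q j) + (B' i + B' j)) ≤ K ^ 3 := by
    intro i j
    have e : Az * L (q i + q j) + (B' i + B' j) =
        Az * (B i + B j + L (q i + q j)) + ((Az * B i + B' i) + (Az * B j + B' j)) := by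
      have e1 : Az * (B i + B j + L (q i + q j)) + ((Az * B i + B' i) + (Az * B j + B' j)) =
          Az * L (q i + q j) + (B' i + B' j) + (Az * B i + Az * B i) + (Az * B j + Az * B j) := by
        rw [mul_add, mul_add]; abel
      rw [e1, Pool.Agent.MF.LemT.add_self two, Pool.Agent.MF.LemT.add_self two]
      simp
    rw [e]
    refine (nr_add _ _).trans ((Nat.mul_le_mul ((nr_mul_left _ _).trans (hB i j)) ((nr_add _ _).trans
      (Nat.mul_le_mul (hl i) (hl j)))).trans (le_of_eq ?_))
    ring
  have hpr2 : ∀ i j, nr (L (q i + q j) * Az + (B' i + B' j)) ≤ K ^ 3 := by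
    intro i j
    have e : L (q i + q j) * Az + (B' i + B' j) =
        (B i + B j + L (q i + q j)) * Az + ((B i * Az + B' i) + (B j * Az + B' j)) := by
      have e1 : (B i + B j + L (q i + q j)) * Az + ((B i * Az + B' i) + (B j * Az + B' j)) =
          L (q i + q j) * Az + (B' i + B' j) + (B i * Az + B i * Az) + (B j * Az + B j * Az) := by
        rw [add_mul, add_mul]; abel
      rw [e1, Pool.Agent.MF.LemT.add_self two, Pool.Agent.MF.LemT.add_self two]
      simp
    rw [e]
    refine (nr_add _ _).trans ((Nat.mul_le_mul ((nr_mul_right _ _).trans (hB i j)) ((nr_add _ _).trans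
      (Nat.mul_le_mul (hr i) (hr j)))).trans (le_of_eq ?_))
    ring
  refine ⟨AddSubgroup.closure (diffs q Set.univ), rfl, ?_, ?_⟩
  · exact (index_closure_le (diffs q Set.univ) h0 K hcard).trans (by omega)
  · intro v hv
    obtain ⟨l, hlen, hlX, rfl⟩ := hgen v hv
    have hlen' : c ^ (2 * l.length + 1) ≤ K + c ^ (2 * (3 * K + 1) + 1) + 1 := by
      have h1 : c ^ (2 * l.length + 1) ≤ c ^ (2 * (3 * K + 1) + 1) := Nat.pow_le_pow_right hc1 (by omega)
      omega
    constructor
    · refine (list_bound (fun v => Az * L v + L v * Az) ⊤ (diffs q Set.univ)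
        (fun _ _ => AddSubgroup.mem_top _) (c := c) two ?_ ?_ ?_ l hlX).trans hlen'
      · refine le_trans ((nr_add _ _).trans (Nat.mul_le_mul ((nr_mul_left _ _).trans hL0)
          ((nr_mul_right _ _).trans hL0))) ?_
        rw [← pow_two]
        exact hp (by omega)
      · intro a _ b _
        have e : Az * L (a + b) + L (a + b) * Az + (Az * L a + L a * Az + (Az * L b + L b * Az)) =
            Az * (L (a + b) + (L a + L b)) + (L (a + b) + (L a + L b)) * Az := by
          rw [add_mul, add_mul, mul_add, mul_add]; abel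
        show nr (Az * L (a + b) + L (a + b) * Az + (Az * L a + L a * Az + (Az * L b + L b * Az))) ≤ _
        rw [e]
        refine le_trans ((nr_add _ _).trans (Nat.mul_le_mul ((nr_mul_left _ _).trans (add a b))
          ((nr_mul_right _ _).trans (add a b)))) ?_
        rw [← pow_two]
        exact hp (by omega)
      · rintro d ⟨i, -, j, -, rfl⟩
        show nr (Az * L (q i + q j) + L (q i + q j) * Az) ≤ _
        refine (tr two (b := B' i + B' j) (y := K ^ 3) (hpr i j) ?_).trans ?_
        · rw [add_comm]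
          exact hpr2 i j
        · rw [← pow_add]
          exact hp (by omega)
    · refine (list_bound (fun v => Az * L v + L (Az v)) ⊤ (diffs q Set.univ)
        (fun _ _ => AddSubgroup.mem_top _) (c := c) two ?_ ?_ ?_ l hlX).trans hlen'
      · show nr (Az * L 0 + L (Az 0)) ≤ _
        rw [map_zero]
        refine le_trans ((nr_add _ _).trans (Nat.mul_le_mul ((nr_mul_left _ _).trans hL0) hL0)) ?_
        rw [← pow_two]
        exact hp (by omega)
      · intro a _ b _
        show nr (Az * L (a + b) + L (Az (a + b)) + (Az * L a + L (Az a) + (Az * L b + L (Az b)))) ≤ _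
        rw [map_add]
        have e : Az * L (a + b) + L (Az a + Az b) + (Az * L a + L (Az a) + (Az * L b + L (Az b))) =
            Az * (L (a + b) + (L a + L b)) + (L (Az a + Az b) + (L (Az a) + L (Az b))) := by
          rw [mul_add, mul_add]; abel
        rw [e]
        refine le_trans ((nr_add _ _).trans (Nat.mul_le_mul ((nr_mul_left _ _).trans (add a b))
          (add _ _))) ?_
        rw [← pow_two]
        exact hp (by omega)
      · rintro d ⟨i, -, j, -, rfl⟩
        show nr (Az * L (q i + q j) + L (Az (q i + q j))) ≤ _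
        have e : Az (q i + q j) = q' i + q' j := by
          have h1 := hno i j
          rw [map_add]
          have h2 : Az (q i) = Az (q j) + q' j + q' i := by
            calc Az (q i) = Az (q i) + (q' i + q' i) := by rw [two, add_zero]
              _ = (Az (q i) + q' i) + q' i := by abel
              _ = Az (q j) + q' j + q' i := by rw [h1]
          rw [h2]
          have h3 : Az (q j) + q' j + q' i + Az (q j) = (Az (q j) + Az (q j)) + (q' i + q' j) := by abel
          rw [h3, two, zero_add]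
        rw [e]
        refine (tr two (hpr i j) (b := B' i + B' j) (hB' i j)).trans ?_
        rw [← pow_succ]
        exact hp (by omega)

/-- a dense family has a dense class, if there are boundedly many classes -/
theorem popular_class {U κ C : Type} [Finite U] (q : κ → U) (cl : κ → C) (K : ℕ) (hf : (Set.range cl).Finite)
    (hK : (Set.range cl).ncard ≤ K) :
    (Set.range q).ncard = 0 ∨ ∃ c : C, (Set.range q).ncard ≤ K * (q '' {i | cl i = c}).ncard := by
  classical
  by_contra hcon
  push Not at hcon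
  obtain ⟨h0, h⟩ := hcon
  have h1 : Set.range q = ⋃ c ∈ hf.toFinset, q '' {i | cl i = c} := by
    ext u
    simp only [Set.mem_range, Set.mem_iUnion, Set.mem_image, Set.mem_setOf_eq, Set.Finite.mem_toFinset]
    constructor
    · rintro ⟨i, rfl⟩
      exact ⟨cl i, ⟨i, rfl⟩, i, rfl, rfl⟩
    · rintro ⟨_, _, i, _, rfl⟩
      exact ⟨i, rfl⟩
  have h2 : (Set.range q).ncard ≤ ∑ c ∈ hf.toFinset, (q '' {i | cl i = c}).ncard := by
    rw [h1]
    exact Finset.set_ncard_biUnion_le _ _
  have h3 : hf.toFinset.card ≤ K := by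
    rw [← Set.ncard_eq_toFinset_card _ hf]
    exact hK
  have hne : hf.toFinset.Nonempty := by
    by_contra hcon
    rw [Finset.not_nonempty_iff_eq_empty] at hcon
    rw [hcon, Finset.sum_empty] at h2
    omega
  have h4 : K * ∑ c ∈ hf.toFinset, (q '' {i | cl i = c}).ncard < hf.toFinset.card * (Set.range q).ncard := by
    rw [Finset.mul_sum, ← smul_eq_mul (hf.toFinset.card), ← Finset.sum_const]
    exact Finset.sum_lt_sum_of_nonempty hne (fun c _ => h c)
  have h5 : hf.toFinset.card * (Set.range q).ncard ≤ K * (Set.range q).ncard := Nat.mul_le_mul_right _ h3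
  have h6 : K * (Set.range q).ncard ≤ K * ∑ c ∈ hf.toFinset, (q '' {i | cl i = c}).ncard := Nat.mul_le_mul_left _ h2
  omega

/-- **The subgroup of one letter**, with colours `n`, `n'` and noise in bounded sets. -/
theorem dz_col (K : ℕ) : ∃ K' : ℕ, 1 ≤ K' ∧ ∀ (U : Type) [AddCommGroup U] [Finite U], (∀ u : U, u + u = 0) →
    ∀ (L : U → AddMonoid.End U) (Az : AddMonoid.End U) (κ : Type) (q q' : κ → U) (B B' : κ → AddMonoid.End U)
    (V : Set (AddMonoid.End U)) (n n' : κ → AddMonoid.End U) (I : Set U),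
    (∀ u v, nr (L (u + v) + (L u + L v)) ≤ K) →
    V.ncard ≤ K → I.ncard ≤ K → (∀ i, n i ∈ V) → (∀ i, n' i ∈ V) →
    (∀ i, nr (B i + (L (q i) + n i)) ≤ K) →
    (∀ i, nr (B' i + (L (q' i) + n' i)) ≤ K) →
    (∀ i, nr (Az * B i + B' i) ≤ K) → (∀ i, nr (B i * Az + B' i) ≤ K) →
    (∀ i, Az (q i) + q' i ∈ I) →
    Nat.card U ≤ K * (Set.range q).ncard →
    ∃ D : AddSubgroup U, D.index ≤ K' ∧
      ∀ v ∈ D, nr (Az * L v + L v * Az) ≤ K' ∧ nr (Az * L v + L (Az v)) ≤ K' := by
  obtain ⟨K', hK', h⟩ := dz (K + K ^ 3 + K * K ^ 3)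
  refine ⟨K', hK', ?_⟩
  intro U _ _ two L Az κ q q' B B' V n n' I add hV hI hn hn' hB hB' hl hr hno hd
  have hK : 1 ≤ K := (nr_pos _).trans_le (add 0 0)
  have hfE : Finite (AddMonoid.End U) :=
    Finite.of_injective (fun f : AddMonoid.End U => (f : U → U)) DFunLike.coe_injective
  have hVf : V.Finite := Set.toFinite _
  have hIf : I.Finite := Set.toFinite _
  have hsub : Set.range (fun i => (n i, n' i, Az (q i) + q' i)) ⊆ V ×ˢ (V ×ˢ I) := by
    rintro _ ⟨i, rfl⟩
    exact ⟨hn i, hn' i, hno i⟩
  have hfin : (Set.range (fun i => (n i, n' i, Az (q i) + q' i))).Finite := Set.toFinite _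
  have hcc : (Set.range (fun i => (n i, n' i, Az (q i) + q' i))).ncard ≤ K ^ 3 := by
    refine (Set.ncard_le_ncard hsub (Set.toFinite _)).trans ?_
    rw [Set.ncard_prod, Set.ncard_prod]
    calc V.ncard * (V.ncard * I.ncard) ≤ K * (K * K) := Nat.mul_le_mul hV (Nat.mul_le_mul hV hI)
      _ = K ^ 3 := by ring
  rcases popular_class q (fun i => (n i, n' i, Az (q i) + q' i)) (K ^ 3) hfin hcc with h0 | ⟨c, hc⟩
  · exfalso
    rw [h0, mul_zero] at hd
    have h2 : 0 < Nat.card U := Nat.card_pos
    omega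
  refine Exists.imp (fun D hD => hD.2) (h U two L Az {i : κ // (n i, n' i, Az (q i) + q' i) = c} (fun i => q i)
    (fun i => q' i) (fun i => B i) (fun i => B' i) ?_ ?_ ?_ ?_ ?_ ?_ ?_)
  · intro u v
    exact (add u v).trans (by omega)
  · rintro ⟨i, hi⟩ ⟨j, hj⟩
    have e0 : n i = n j := by
      have := hi.trans hj.symm
      exact (Prod.mk.inj this).1
    have e : B i + B j + L (q i + q j) =
        (B i + (L (q i) + n i)) + (B j + (L (q j) + n j)) + (L (q i + q j) + (L (q i) + L (q j))) := by
      rw [e0]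
      have e1 : (B i + (L (q i) + n j)) + (B j + (L (q j) + n j)) + (L (q i + q j) + (L (q i) + L (q j))) =
          B i + B j + L (q i + q j) + (n j + n j) + (L (q i) + L (q i)) + (L (q j) + L (q j)) := by abel
      rw [e1, Pool.Agent.MF.LemT.add_self two, Pool.Agent.MF.LemT.add_self two, Pool.Agent.MF.LemT.add_self two]
      simp
    show nr (B i + B j + L (q i + q j)) ≤ _
    rw [e]
    refine ((nr_add _ _).trans (Nat.mul_le_mul ((nr_add _ _).trans (Nat.mul_le_mul (hB i) (hB j)))
      (add _ _))).trans ?_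
    have : K * K * K = K ^ 3 := by ring
    omega
  · rintro ⟨i, hi⟩ ⟨j, hj⟩
    have e0 : n' i = n' j := by
      have := hi.trans hj.symm
      exact (Prod.mk.inj (Prod.mk.inj this).2).1
    have e : B' i + B' j + L (q' i + q' j) =
        (B' i + (L (q' i) + n' i)) + (B' j + (L (q' j) + n' j)) + (L (q' i + q' j) + (L (q' i) + L (q' j))) := by
      rw [e0]
      have e1 : (B' i + (L (q' i) + n' j)) + (B' j + (L (q' j) + n' j)) + (L (q' i + q' j) + (L (q' i) + L (q' j))) =
          B' i + B' j + L (q' i + q' j) + (n' j + n' j) + (L (q' i) + L (q' i)) + (L (q' j) + L (q' j)) := by abel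
      rw [e1, Pool.Agent.MF.LemT.add_self two, Pool.Agent.MF.LemT.add_self two, Pool.Agent.MF.LemT.add_self two]
      simp
    show nr (B' i + B' j + L (q' i + q' j)) ≤ _
    rw [e]
    refine ((nr_add _ _).trans (Nat.mul_le_mul ((nr_add _ _).trans (Nat.mul_le_mul (hB' i) (hB' j)))
      (add _ _))).trans ?_
    have : K * K * K = K ^ 3 := by ring
    omega
  · rintro ⟨i, hi⟩
    exact (hl i).trans (by omega)
  · rintro ⟨i, hi⟩
    exact (hr i).trans (by omega)
  · rintro ⟨i, hi⟩ ⟨j, hj⟩
    have := hi.trans hj.symm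
    exact (Prod.mk.inj (Prod.mk.inj this).2).2
  · have e : Set.range (fun i : {i : κ // (n i, n' i, Az (q i) + q' i) = c} => q i) =
        q '' {i | (n i, n' i, Az (q i) + q' i) = c} := by
      ext u
      constructor
      · rintro ⟨⟨i, hi⟩, rfl⟩
        exact ⟨i, hi, rfl⟩
      · rintro ⟨i, hi, rfl⟩
        exact ⟨⟨i, hi⟩, rfl⟩
    rw [e]
    calc Nat.card U ≤ K * (Set.range q).ncard := hd
      _ ≤ K * (K ^ 3 * (q '' {i | (n i, n' i, Az (q i) + q' i) = c}).ncard) := Nat.mul_le_mul_left _ hc
      _ = (K * K ^ 3) * (q '' {i | (n i, n' i, Az (q i) + q' i) = c}).ncard := by ring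
      _ ≤ _ := Nat.mul_le_mul_right _ (by omega)

end Helper28MF
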